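import Pool.Agent.W601.RP.Stm2

/-!
# Project RP, part D2: density of Bohr sets
-/

set_option autoImplicit false

namespace Pool.Agent.W701.RP

open Pool.Agent.W601.RP

/-- representative in `[0, 1)` -/
noncomputable def rp (y : TT) : ℝ := ((AddCircle.equivIco (1 : ℝ) 0 y : Set.Ico (0 : ℝ) (0 + 1)) : ℝ)

theorem rp_nonneg (y : TT) : 0 ≤ rp y := (AddCircle.equivIco (1 : ℝ) 0 y).2.1

theorem rp_lt (y : TT) : rp y < 1 := by
  have := (AddCircle.equivIco (1 : ℝ) 0 y).2.2
  unfold rp
  linarith

theorem coe_rp (y : TT) : ((rp y : ℝ) : TT) = y :=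
  (AddCircle.equivIco (1 : ℝ) 0).symm_apply_apply y

theorem norm_sub_le_rp (y y' : TT) : ‖y - y'‖ ≤ |rp y - rp y'| := by
  have h1 : y - y' = (((rp y - rp y' : ℝ)) : TT) := by
    rw [AddCircle.coe_sub, coe_rp, coe_rp]
  rw [h1, UnitAddCircle.norm_eq]
  have := round_le (rp y - rp y') 0
  simpa using this

theorem d2 : S_PZ → S_D2 := by
  classical
  intro hpz n F hF m hm
  have hm0 : (0 : ℝ) < (m : ℝ) := by
    have : 0 < m := hm
    exact_mod_cast this
  have hfl : ∀ y : TT, ⌊(m : ℝ) * rp y⌋₊ < m := by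
    intro y
    rw [Nat.floor_lt (mul_nonneg hm0.le (rp_nonneg y))]
    have := rp_lt y
    nlinarith
  -- the class map
  let f : Gm n → (F → Fin m) := fun z h => ⟨⌊(m : ℝ) * rp (pz z h.1)⌋₊, hfl _⟩
  set B : Finset (Gm n) := Finset.univ.filter (fun z : Gm n => ∀ h ∈ F, ‖pz z h‖ ≤ 1 / (m : ℝ))
    with hB
  have hcard : (Finset.univ : Finset (Gm n)).card ≤
      B.card * (Finset.univ : Finset (F → Fin m)).card := by
    apply Finset.card_le_mul_card_image_of_maps_to (f := f) (fun _ _ => Finset.mem_univ _)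
    intro b _
    by_cases hne : (Finset.univ.filter (fun z => f z = b)).Nonempty
    · obtain ⟨z0, hz0⟩ := hne
      have hz0' : f z0 = b := (Finset.mem_filter.mp hz0).2
      apply Finset.card_le_card_of_injOn (fun z => z - z0)
      · intro z hz
        have hz' : f z = b := by
          have := Finset.mem_coe.mp hz
          exact (Finset.mem_filter.mp this).2
        rw [Finset.mem_coe, hB, Finset.mem_filter]
        refine ⟨Finset.mem_univ _, ?_⟩
        intro h hh
        have h1 : pz (z - z0) h = pz z h - pz z0 h := by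
          have h2 := hpz.1 n h (hF h hh) (z - z0) z0
          rw [sub_add_cancel] at h2
          rw [h2]
          abel
        rw [h1]
        refine (norm_sub_le_rp _ _).trans ?_
        have h3 : ⌊(m : ℝ) * rp (pz z h)⌋₊ = ⌊(m : ℝ) * rp (pz z0 h)⌋₊ := by
          have h4 : f z ⟨h, hh⟩ = f z0 ⟨h, hh⟩ := by rw [hz', hz0']
          exact congrArg Fin.val h4
        have h5 := Nat.floor_le (mul_nonneg hm0.le (rp_nonneg (pz z h)))
        have h6 := Nat.lt_floor_add_one ((m : ℝ) * rp (pz z h))
        have h7 := Nat.floor_le (mul_nonneg hm0.le (rp_nonneg (pz z0 h)))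
        have h8 := Nat.lt_floor_add_one ((m : ℝ) * rp (pz z0 h))
        rw [h3] at h5 h6
        rw [abs_le]
        constructor
        · rw [neg_le, le_div_iff₀ hm0]
          nlinarith
        · rw [le_div_iff₀ hm0]
          nlinarith
      · intro z _ z' _ hzz
        exact sub_left_injective hzz
    · rw [Finset.not_nonempty_iff_eq_empty] at hne
      rw [hne]
      exact Nat.zero_le _
  have h9 : (Finset.univ : Finset (F → Fin m)).card = m ^ F.card := by
    rw [Finset.card_univ, Fintype.card_fun, Fintype.card_coe, Fintype.card_fin]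
  rw [h9, Finset.card_univ] at hcard
  have h10 : (Fintype.card (Gm n) : ℝ) ≤ (B.card : ℝ) * (m : ℝ) ^ F.card := by
    exact_mod_cast hcard
  linarith [h10]

end Pool.Agent.W701.RP
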