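import Mathlib
import Pool.Agent.W941.RP.Stm

/-!
Project RP (helper941): products in disjoint variables (helper701).
-/

set_option autoImplicit false

namespace Pool.Agent.W701.RP

open MvPolynomial Pool.Agent.W941.RP

theorem mon_apply {d : ℕ} (m : ℕ) (S : Finset (Fin d)) (j : Fin d) :
    mon m S j = if j ∈ S then m else 0 := by
  unfold mon
  rw [Finsupp.finsetSum_apply]
  simp [Finsupp.single_apply]

theorem split : SplitStmt := by
  intro d m hm p q S hp hq
  classical
  rw [coeff_mul]
  refine Finset.sum_eq_single (mon m S, mon m Sᶜ) ?_ ?_
  · rintro ⟨a, b⟩ hab hne
    rw [Finset.HasAntidiagonal.mem_antidiagonal] at hab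
    simp only at hab
    by_contra h0
    have ha : coeff a p ≠ 0 := left_ne_zero_of_mul h0
    have hb : coeff b q ≠ 0 := right_ne_zero_of_mul h0
    have h1 := hp a ha
    have h2 := hq b hb
    apply hne
    have key : ∀ j, a j + b j = m := by
      intro j
      have := congrArg (fun f => f j) hab
      simpa [mon_apply] using this
    have ea : a = mon m S := by
      ext j
      rw [mon_apply]
      by_cases hj : j ∈ S
      · rw [if_pos hj]
        have h3 : b j = 0 := by
          by_contra h4
          have := h2 (Finsupp.mem_support_iff.mpr h4)
          rw [Finset.mem_compl] at this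
          exact this hj
        have := key j
        omega
      · rw [if_neg hj]
        by_contra h4
        exact hj (h1 (Finsupp.mem_support_iff.mpr h4))
    have eb : b = mon m Sᶜ := by
      ext j
      rw [mon_apply]
      by_cases hj : j ∈ S
      · rw [if_neg (by simpa using hj)]
        by_contra h4
        have := h2 (Finsupp.mem_support_iff.mpr h4)
        rw [Finset.mem_compl] at this
        exact this hj
      · rw [if_pos (by simpa using hj)]
        have h3 : a j = 0 := by
          by_contra h4
          exact hj (h1 (Finsupp.mem_support_iff.mpr h4))
        have := key j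
        omega
    rw [ea, eb]
  · intro hn
    exfalso
    apply hn
    rw [Finset.HasAntidiagonal.mem_antidiagonal]
    ext j
    simp only [Finsupp.add_apply, mon_apply, Finset.mem_compl, Finset.mem_univ, if_true]
    by_cases hj : j ∈ S <;> simp [hj]

end Pool.Agent.W701.RP
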